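import Pool.Agent.Y915.Stm

set_option autoImplicit false

/-! The weights: `StNum1`, `StNum2`, `StNum3`, `StNum4`. -/

namespace Pool.Agent.Y536.PC

open Pool.Agent.Y915
open scoped Nat

lemma vf_eq (p m : ℕ) (hp : p.Prime) : vf p m = padicValNat p (m !) := by
  unfold vf
  exact Nat.factorization_def _ hp

lemma vf_add_le (p a b : ℕ) : vf p a + vf p b ≤ vf p (a + b) := by
  unfold vf
  have h1 : a ! * b ! ∣ (a + b)! := Nat.factorial_mul_factorial_dvd_factorial_add a b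
  have h2 := (Nat.factorization_le_iff_dvd
    (mul_ne_zero (Nat.factorial_ne_zero a) (Nat.factorial_ne_zero b))
    (Nat.factorial_ne_zero (a + b))).2 h1
  have h3 := h2 p
  rw [Nat.factorization_mul (Nat.factorial_ne_zero a) (Nat.factorial_ne_zero b)] at h3
  exact h3

lemma vf_mono (p : ℕ) {a b : ℕ} (h : a ≤ b) : vf p a ≤ vf p b := by
  obtain ⟨c, rfl⟩ := Nat.exists_eq_add_of_le h
  exact le_trans (Nat.le_add_right _ _) (vf_add_le p a c)

lemma vf_zero_of_lt (p m : ℕ) (h : m < p) : vf p m = 0 := by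
  unfold vf
  exact Nat.factorization_factorial_eq_zero_of_lt h

theorem num1 : StNum1 := by
  intro k d m l
  unfold wt
  have h1 : ∀ m' l' : ℕ, (∏ p ∈ (Finset.range (m' + 1)).filter Nat.Prime,
      p ^ (d p * (m' / p ^ k p) + vf p (m' / p ^ k p))) ∣
      ∏ p ∈ (Finset.range (m' + l' + 1)).filter Nat.Prime,
        p ^ (d p * (m' / p ^ k p) + vf p (m' / p ^ k p)) := by
    intro m' l'
    refine Finset.prod_dvd_prod_of_subset _ _ _ ?_
    refine Finset.filter_subset_filter _ ?_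
    intro x hx
    rw [Finset.mem_range] at hx ⊢
    omega
  have h2 := h1 l m
  rw [add_comm l m] at h2
  refine (mul_dvd_mul (h1 m l) h2).trans ?_
  rw [← Finset.prod_mul_distrib]
  refine Finset.prod_dvd_prod_of_dvd _ _ fun p _ => ?_
  rw [← pow_add]
  refine pow_dvd_pow p ?_
  have h3 : m / p ^ k p + l / p ^ k p ≤ (m + l) / p ^ k p :=
    Nat.div_add_div_le_add_div
  have h4 := vf_add_le p (m / p ^ k p) (l / p ^ k p)
  have h5 := vf_mono p h3
  have h6 := Nat.mul_le_mul_left (d p) h3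
  rw [mul_add] at h6
  omega

lemma vf_le (p a : ℕ) (hp : p.Prime) : (vf p a : ℝ) ≤ a / ((p : ℝ) - 1) := by
  have : Fact p.Prime := ⟨hp⟩
  have hp1 : (0 : ℝ) < (p : ℝ) - 1 := by
    have : (1 : ℝ) < p := by exact_mod_cast hp.one_lt
    linarith
  rw [le_div_iff₀ hp1, vf_eq p a hp]
  have h1 := sub_one_mul_padicValNat_factorial (p := p) a
  have h2 : (p - 1) * padicValNat p (a !) ≤ a := by rw [h1]; exact Nat.sub_le _ _
  have h3 : (((p - 1 : ℕ) : ℝ)) * (padicValNat p (a !) : ℝ) ≤ a := by exact_mod_cast h2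
  rw [Nat.cast_sub hp.one_le, Nat.cast_one] at h3
  linarith

theorem num2 : StNum2 := by
  intro k d m
  unfold wt
  rw [Nat.cast_prod, Real.log_prod, Finset.sum_mul]
  · refine Finset.sum_le_sum fun p hp => ?_
    have hpp : p.Prime := (Finset.mem_filter.1 hp).2
    have hp1 : (0 : ℝ) < (p : ℝ) - 1 := by
      have : (1 : ℝ) < p := by exact_mod_cast hpp.one_lt
      linarith
    have hp0 : (0 : ℝ) < (p : ℝ) ^ k p := by
      have : (0 : ℝ) < p := by exact_mod_cast hpp.pos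
      positivity
    have hlog : 0 ≤ Real.log p := Real.log_natCast_nonneg p
    have ha : ((m / p ^ k p : ℕ) : ℝ) ≤ (m : ℝ) / (p : ℝ) ^ k p := by
      have := @Nat.cast_div_le ℝ _ _ _ m (p ^ k p)
      rwa [Nat.cast_pow] at this
    have hv := vf_le p (m / p ^ k p) hpp
    rw [Nat.cast_pow, Real.log_pow]
    push_cast
    have h1 : (d p : ℝ) * ((m / p ^ k p : ℕ) : ℝ) + (vf p (m / p ^ k p) : ℝ) ≤
        ((d p : ℝ) + 1 / ((p : ℝ) - 1)) * ((m : ℝ) / (p : ℝ) ^ k p) := by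
      have h2 : (vf p (m / p ^ k p) : ℝ) ≤ (m : ℝ) / (p : ℝ) ^ k p / ((p : ℝ) - 1) :=
        hv.trans (div_le_div_of_nonneg_right ha hp1.le)
      have h3 : (d p : ℝ) * ((m / p ^ k p : ℕ) : ℝ) ≤ (d p : ℝ) * ((m : ℝ) / (p : ℝ) ^ k p) :=
        mul_le_mul_of_nonneg_left ha (Nat.cast_nonneg _)
      have h4 : ((d p : ℝ) + 1 / ((p : ℝ) - 1)) * ((m : ℝ) / (p : ℝ) ^ k p) =
          (d p : ℝ) * ((m : ℝ) / (p : ℝ) ^ k p) + (m : ℝ) / (p : ℝ) ^ k p / ((p : ℝ) - 1) := by
        ring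
      rw [h4]
      exact add_le_add h3 h2
    have h5 := mul_le_mul_of_nonneg_right h1 hlog
    refine h5.trans (le_of_eq ?_)
    ring
  · intro p hp
    have hpp : p.Prime := (Finset.mem_filter.1 hp).2
    exact_mod_cast pow_ne_zero _ hpp.ne_zero

/-- Legendre's formula in blocks -/
lemma vf_block (p : ℕ) (hp : p.Prime) : ∀ k a b : ℕ, b < p ^ k →
    vf p (p ^ k * a + b) = a * vf p (p ^ k) + vf p b + vf p a := by
  have : Fact p.Prime := ⟨hp⟩
  have hstep : ∀ x r : ℕ, r < p → vf p (p * x + r) = vf p x + x := by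
    intro x r hr
    rw [vf_eq p _ hp, vf_eq p _ hp, padicValNat_factorial_mul_add x hr, padicValNat_factorial_mul]
  have hstep0 : ∀ x : ℕ, vf p (p * x) = vf p x + x := fun x => by
    have := hstep x 0 hp.pos
    rwa [add_zero] at this
  intro k
  induction k with
  | zero =>
    intro a b hb
    have hb0 : b = 0 := by simpa using hb
    have h0 : vf p 0 = 0 := vf_zero_of_lt p 0 hp.pos
    have h1 : vf p 1 = 0 := vf_zero_of_lt p 1 hp.one_lt
    rw [hb0, pow_zero, one_mul, add_zero, h1, mul_zero, h0, zero_add, zero_add]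
  | succ k ih =>
    intro a b hb
    obtain ⟨b', r, hr, rfl⟩ : ∃ b' r, r < p ∧ b = p * b' + r :=
      ⟨b / p, b % p, Nat.mod_lt _ hp.pos, (Nat.div_add_mod b p).symm⟩
    have hb' : b' < p ^ k := by
      by_contra hcon
      push Not at hcon
      have h1 : p * p ^ k ≤ p * b' := Nat.mul_le_mul_left p hcon
      rw [pow_succ'] at hb
      omega
    have e1 : p ^ (k + 1) * a + (p * b' + r) = p * (p ^ k * a + b') + r := by ring
    rw [e1, hstep _ r hr, ih a b' hb', hstep b' r hr, pow_succ', hstep0]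
    ring

theorem num3 : StNum3 := by
  intro k d E m g hE hEp hg
  rw [Int.natCast_dvd]
  set z : ℕ := ((E : ℤ) * wt k d m * g).natAbs with hz
  by_cases hz0 : z = 0
  · rw [hz0]
    exact dvd_zero _
  rw [← Nat.factorization_prime_le_iff_dvd (Nat.factorial_ne_zero m) hz0]
  intro p hp
  change vf p m ≤ _
  rw [← hp.pow_dvd_iff_le_factorization hz0, hz, ← Int.natCast_dvd]
  by_cases hpm : m < p
  · rw [vf_zero_of_lt p m hpm, pow_zero]
    exact one_dvd _
  push Not at hpm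
  have hPpos : 0 < p ^ k p := pow_pos hp.pos _
  set a := m / p ^ k p with ha
  set b := m % p ^ k p with hb
  have hbP : b < p ^ k p := Nat.mod_lt _ hPpos
  have hm : m = p ^ k p * a + b := (Nat.div_add_mod m (p ^ k p)).symm
  have hv := vf_block p hp (k p) a b hbP
  rw [← hm] at hv
  have hvb : vf p b ≤ vf p (p ^ k p - 1) := vf_mono p (by omega)
  have hle : vf p m ≤ vf p (p ^ k p - 1) + (d p * a + vf p a) + (vf p (p ^ k p) - d p) * a := by
    have h1 : a * vf p (p ^ k p) ≤ d p * a + (vf p (p ^ k p) - d p) * a := by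
      rw [← add_mul, mul_comm a]
      exact Nat.mul_le_mul_right a (by omega)
    omega
  have h1 : ((p ^ vf p m : ℕ) : ℤ) ∣
      (p : ℤ) ^ (vf p (p ^ k p - 1) + (d p * a + vf p a) + (vf p (p ^ k p) - d p) * a) := by
    rw [Nat.cast_pow]
    exact pow_dvd_pow (p : ℤ) hle
  refine h1.trans ?_
  rw [pow_add, pow_add]
  refine mul_dvd_mul (mul_dvd_mul ?_ ?_) (hg p hp)
  · have h2 := hEp p hp
    have h3 : ((p ^ vf p (p ^ k p - 1) : ℕ) : ℤ) ∣ (E : ℤ) := Int.natCast_dvd_natCast.2 h2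
    rwa [Nat.cast_pow] at h3
  · have h2 : p ^ (d p * (m / p ^ k p) + vf p (m / p ^ k p)) ∣ wt k d m := by
      unfold wt
      exact Finset.dvd_prod_of_mem
        (fun p => p ^ (d p * (m / p ^ k p) + vf p (m / p ^ k p)))
        (Finset.mem_filter.2 ⟨Finset.mem_range.2 (by omega), hp⟩)
    have h3 := Int.natCast_dvd_natCast.2 h2
    rwa [Nat.cast_pow] at h3

/-- `log p / (p (p - 1))` is small on large finite sets -/
lemma tail_small (δ : ℝ) (hδ : 0 < δ) : ∃ P : ℕ, 1 ≤ P ∧ ∀ t : Finset ℕ, (∀ p ∈ t, P < p) →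
    ∑ p ∈ t, Real.log p / ((p : ℝ) * ((p : ℝ) - 1)) ≤ δ := by
  have hs : Summable fun n : ℕ => 4 * ((1 : ℝ) / (n : ℝ) ^ (3 / 2 : ℝ)) :=
    (Real.summable_one_div_nat_rpow.2 (by norm_num)).mul_left 4
  obtain ⟨s, hs'⟩ := summable_iff_vanishing_norm.1 hs δ hδ
  refine ⟨s.sup id + 1, by omega, fun t ht => ?_⟩
  have hdis : Disjoint t s := by
    rw [Finset.disjoint_left]
    intro p hp hps
    have h1 := ht p hp
    have h2 : id p ≤ s.sup id := Finset.le_sup hps
    simp only [id] at h2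
    omega
  have h1 := hs' t hdis
  refine le_trans ?_ (le_of_lt (lt_of_abs_lt h1))
  refine Finset.sum_le_sum fun p hp => ?_
  have hp2 : 2 ≤ p := by have := ht p hp; omega
  have hp2' : (2 : ℝ) ≤ p := by exact_mod_cast hp2
  have hp0 : (0 : ℝ) < p := by linarith
  have hp1 : (0 : ℝ) < (p : ℝ) - 1 := by linarith
  have hlog : Real.log p ≤ 2 * (p : ℝ) ^ (1 / 2 : ℝ) := by
    have h2 := Real.log_le_rpow_div hp0.le (show (0 : ℝ) < 1 / 2 by norm_num)
    have h3 : (p : ℝ) ^ (1 / 2 : ℝ) / (1 / 2) = 2 * (p : ℝ) ^ (1 / 2 : ℝ) := by ring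
    rwa [h3] at h2
  have hpw : (p : ℝ) ^ (1 / 2 : ℝ) * (p : ℝ) ^ (3 / 2 : ℝ) = (p : ℝ) ^ 2 := by
    rw [← Real.rpow_add hp0, ← Real.rpow_natCast]
    norm_num
  have hq : (0 : ℝ) < (p : ℝ) ^ (3 / 2 : ℝ) := Real.rpow_pos_of_pos hp0 _
  have hden : (p : ℝ) ^ 2 ≤ 2 * ((p : ℝ) * ((p : ℝ) - 1)) := by nlinarith
  rw [div_le_iff₀ (mul_pos hp0 hp1)]
  refine hlog.trans ?_
  have h4 : 4 * (1 / (p : ℝ) ^ (3 / 2 : ℝ)) * ((p : ℝ) * ((p : ℝ) - 1)) =
      (2 * (2 * ((p : ℝ) * ((p : ℝ) - 1)))) / (p : ℝ) ^ (3 / 2 : ℝ) := by ring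
  rw [h4, le_div_iff₀ hq]
  have h5 : 2 * (p : ℝ) ^ (1 / 2 : ℝ) * (p : ℝ) ^ (3 / 2 : ℝ) = 2 * (p : ℝ) ^ 2 := by
    rw [mul_assoc, hpw]
  rw [h5]
  linarith

theorem num4 : StNum4 := by
  intro δ hδ
  obtain ⟨P, hP1, hP⟩ := tail_small (δ / 2) (by linarith)
  -- the choice of `K`
  obtain ⟨K, hK⟩ : ∃ K : ℕ, (∑ p ∈ Finset.range (P + 1), Real.log p) * (1 / 2 : ℝ) ^ K ≤ δ / 2 := by
    have h1 : Filter.Tendsto (fun K : ℕ => (∑ p ∈ Finset.range (P + 1), Real.log p) *
        (1 / 2 : ℝ) ^ K) Filter.atTop (nhds ((∑ p ∈ Finset.range (P + 1), Real.log p) * 0)) :=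
      (tendsto_pow_atTop_nhds_zero_of_lt_one (by norm_num) (by norm_num)).const_mul _
    rw [mul_zero] at h1
    have h2 := h1.eventually_lt_const (show (0 : ℝ) < δ / 2 by linarith)
    obtain ⟨K, hK⟩ := h2.exists
    exact ⟨K, hK.le⟩
  refine ⟨P, K, fun B m => ?_⟩
  classical
  set T := (Finset.range (m + 1)).filter Nat.Prime with hT
  have hprime : ∀ p ∈ T, p.Prime := fun p hp => (Finset.mem_filter.1 hp).2
  -- split at `P`
  rw [← Finset.sum_filter_add_sum_filter_not T (fun p => p ≤ P)]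
  have hsmall : ∑ p ∈ T.filter (fun p => p ≤ P),
      Real.log p / ((p : ℝ) ^ (if p ≤ P then K else if p ∈ B then 0 else 1) * ((p : ℝ) - 1)) ≤
      δ / 2 := by
    refine le_trans ?_ hK
    rw [Finset.sum_mul]
    refine le_trans (Finset.sum_le_sum (g := fun p : ℕ => Real.log p * (1 / 2 : ℝ) ^ K)
      fun p hp => ?_) ?_
    · have hpT := (Finset.mem_filter.1 hp).1
      have hpP := (Finset.mem_filter.1 hp).2
      rw [if_pos hpP]
      have hp2 : (2 : ℝ) ≤ p := by exact_mod_cast (hprime p hpT).two_le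
      have hlog : 0 ≤ Real.log p := Real.log_natCast_nonneg p
      rw [div_eq_mul_inv]
      refine mul_le_mul_of_nonneg_left ?_ hlog
      rw [one_div, inv_pow]
      refine inv_anti₀ (by positivity) ?_
      have h2 : (2 : ℝ) ^ K ≤ (p : ℝ) ^ K := pow_le_pow_left₀ (by norm_num) hp2 K
      have h3 : (0 : ℝ) < (p : ℝ) ^ K := by positivity
      nlinarith
    · refine Finset.sum_le_sum_of_subset_of_nonneg ?_ fun p _ _ => ?_
      · intro p hp
        have hpP := (Finset.mem_filter.1 hp).2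
        exact Finset.mem_range.2 (by omega)
      · exact mul_nonneg (Real.log_natCast_nonneg p) (by positivity)
  have hlarge : ∑ p ∈ T.filter (fun p => ¬ p ≤ P),
      Real.log p / ((p : ℝ) ^ (if p ≤ P then K else if p ∈ B then 0 else 1) * ((p : ℝ) - 1)) ≤
      δ / 2 + ∑ p ∈ (Finset.range (m + 1)).filter (fun p => p.Prime ∧ P < p ∧ p ∈ B),
        Real.log p / p := by
    have h1 : (Finset.range (m + 1)).filter (fun p => p.Prime ∧ P < p ∧ p ∈ B) =
        (T.filter (fun p => ¬ p ≤ P)).filter (fun p => p ∈ B) := by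
      ext p
      simp only [hT, Finset.mem_filter, not_le]
      tauto
    rw [h1, Finset.sum_filter (fun p => p ∈ B) (fun p : ℕ => Real.log p / p)]
    refine le_trans ?_ (add_le_add_left (hP (T.filter (fun p => ¬ p ≤ P)) fun p hp =>
      not_le.1 (Finset.mem_filter.1 hp).2) _)
    rw [← Finset.sum_add_distrib]
    refine Finset.sum_le_sum fun p hp => ?_
    have hpT := (Finset.mem_filter.1 hp).1
    have hpP := (Finset.mem_filter.1 hp).2
    have hp2 : (2 : ℝ) ≤ p := by exact_mod_cast (hprime p hpT).two_le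
    have hp0 : (p : ℝ) ≠ 0 := by linarith
    have hp1 : (p : ℝ) - 1 ≠ 0 := by
      have : (0 : ℝ) < (p : ℝ) - 1 := by linarith
      exact this.ne'
    rw [if_neg hpP]
    by_cases hB : p ∈ B
    · rw [if_pos hB, if_pos hB, pow_zero, one_mul]
      refine le_of_eq ?_
      field_simp
      ring
    · rw [if_neg hB, if_neg hB, pow_one, add_zero]
  linarith

end Pool.Agent.Y536.PC
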